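import Mathlib

namespace Pool.Agent.H.MP_156542_lc

open FirstOrder Filter

inductive Fm (I : Type) : Type
  | var : ℕ → Fm I
  | neg : Fm I → Fm I
  | and : Fm I → Fm I → Fm I
  | box : I → Fm I → Fm I

def KForces {I W : Type} (R : I → W → W → Prop) (V : ℕ → Set W) : Fm I → W → Prop
  | .var n, x => x ∈ V n
  | .neg φ, x => ¬ KForces R V φ x
  | .and φ ψ, x => KForces R V φ x ∧ KForces R V ψ x
  | .box i φ, x => ∀ y, R i x y → KForces R V φ y

def KValid {I W : Type} (R : I → W → W → Prop) (φ : Fm I) : Prop :=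
  ∀ V : ℕ → Set W, ∀ x, KForces R V φ x

def RO {S : Type} (le : S → S → Prop) (X : Set S) : Prop :=
  X = {x | ∀ x', le x' x → ∃ x'', le x'' x' ∧ x'' ∈ X}

def Forces {I S : Type} (le : S → S → Prop) (R : I → S → S → Prop) (V : ℕ → Set S) :
    Fm I → S → Prop
  | .var n, x => x ∈ V n
  | .neg φ, x => ∀ x', le x' x → ¬ Forces le R V φ x'
  | .and φ ψ, x => Forces le R V φ x ∧ Forces le R V ψ x
  | .box i φ, x => ∀ y, R i x y → Forces le R V φ y

def Valid {I S : Type} (le : S → S → Prop) (R : I → S → S → Prop) (φ : Fm I) : Prop :=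
  ∀ V : ℕ → Set S, (∀ n, RO le (V n)) → ∀ x, Forces le R V φ x

def Full {I S : Type} (le : S → S → Prop) (R : I → S → S → Prop) : Prop :=
  IsPartialOrder S le ∧ ∀ i X, RO le X → RO le {x | ∀ y, R i x y → y ∈ X}

inductive Rel2 (J : Type) : ℕ → Type
  | r : J → Rel2 J 2

def Lang (J : Type) : Language := ⟨fun _ => Empty, Rel2 J⟩

def rel {J : Type} (S : Type) [(Lang J).Structure S] (j : J) (x y : S) : Prop :=
  Language.Structure.RelMap (L := Lang J) (n := 2) (Rel2.r j) ![x, y]

section formulas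
variable {I : Type} (i : I)

def fp : Fm I := .var 0
def fE : Fm I := .box i (.and fp (.neg fp))
def fN : Fm I := .box i (.neg (fE i))
def fX : Fm I := .and (fN i) (.neg (fE i))
def fq : Fm I := .and (.neg (fN i)) (.box i (.neg (.and (fX i) (.neg fp))))
def fm : Fm I := .and (fq i) (.box i (.neg (fq i)))
def fu : Fm I := .box i (.neg (fm i))
def fB : Fm I := .box i (.neg (.and (fX i) fp))
def f1 : Fm I := .neg (.and (.box i (fN i))
  (.and (.box i (.neg (.and (.and (fX i) fp) (fu i)))) (.neg (fB i))))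
def f2 : Fm I := .neg (.and (.box i (fN i))
  (.and (.box i (.neg (.and (.and (fX i) fp) (.neg (fu i))))) (.neg (fB i))))
def phi : Fm I := .and (f1 i) (f2 i)

end formulas

theorem kripke {I W : Type} (i : I) (R : I → W → W → Prop) :
    KValid R (phi i) ↔
      ∀ w v, R i w v → (∀ a b, R i w a → R i a b → ∃ c, R i b c) → ∀ c, ¬ R i v c := by
  have hE : ∀ V x, KForces R V (fE i) x ↔ ∀ c, ¬ R i x c := by
    intro V x; simp [fE, fp, KForces]
  have hN : ∀ V x, KForces R V (fN i) x ↔ ∀ b, R i x b → ∃ c, R i b c := by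
    intro V x; simp only [fN, KForces, hE]; simp
  constructor
  · intro h w v hwv hg c hc
    have h1 := (h (fun _ => {v}) w).1
    have h2 := (h (fun _ => {v}) w).2
    have hγ : KForces R (fun _ => {v}) (.box i (fN i)) w := by
      intro a ha; rw [hN]; exact fun b hb => hg a b ha hb
    have hB : ¬ KForces R (fun _ => {v}) (fB i) w := by
      intro hb
      refine hb v hwv ⟨⟨hγ v hwv, ?_⟩, rfl⟩
      intro he; rw [hE] at he; exact he c hc
    by_cases hu : KForces R (fun _ => {v}) (fu i) v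
    · refine h2 ⟨hγ, ?_, hB⟩
      rintro y _ ⟨⟨_, hy⟩, hy'⟩
      have : y = v := hy
      subst this
      exact hy' hu
    · refine h1 ⟨hγ, ?_, hB⟩
      rintro y _ ⟨⟨_, hy⟩, hy'⟩
      have : y = v := hy
      subst this
      exact hu hy'
  · intro h V w
    have key : KForces R V (.box i (fN i)) w → KForces R V (fB i) w := by
      rintro hγ v hwv ⟨⟨_, h2⟩, _⟩
      apply h2
      rw [hE]
      exact h w v hwv (fun a b ha hb => (hN V a).1 (hγ a ha) b hb)
    exact ⟨fun hh => hh.2.2 (key hh.1), fun hh => hh.2.2 (key hh.1)⟩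

theorem full_of {I S : Type} (le : S → S → Prop) (R : I → S → S → Prop)
    (hpo : IsPartialOrder S le)
    (hB : ∀ i x x' y, le x' x → R i x' y → R i x y)
    (hC : ∀ i x y y', R i x y → le y' y → R i x y')
    (hD : ∀ i x y, R i x y → ∃ x', le x' x ∧ ∀ x'', le x'' x' → R i x'' y) : Full le R := by
  refine ⟨hpo, fun i X hX => ?_⟩
  ext x
  simp only [Set.mem_setOf_eq]
  constructor
  · intro h x' hx'
    exact ⟨x', hpo.refl x', fun y hy => h y (hB i x x' y hx' hy)⟩
  · intro h y hy
    rw [hX]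
    intro y' hy'
    obtain ⟨x', h1, h2⟩ := hD i x y' (hC i x y y' hy hy')
    obtain ⟨x'', h3, h4⟩ := h x' h1
    exact ⟨y', hpo.refl y', h4 y' (h2 x'' h3)⟩

inductive Pt : Type
  | x : List Bool → Pt
  | y : List Bool → Pt
  | e : Pt

def leS : Pt → Pt → Prop
  | .x s, .x t => t <+: s
  | .y s, .y t => s = t
  | .e, .e => True
  | _, _ => False

def RS : Pt → Pt → Prop
  | .x s, .y t => (t ++ [false]) <+: s ∨ s <+: (t ++ [false])
  | .y t, .x s => t <+: s
  | .y t, .y s => s.length < t.length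
  | .y _, .e => True
  | _, _ => False

theorem leS_refl (a : Pt) : leS a a := by cases a <;> simp [leS]

theorem leS_trans (a b c : Pt) (h1 : leS a b) (h2 : leS b c) : leS a c := by
  cases a <;> cases b <;> cases c <;> simp_all [leS]
  exact h2.trans h1

theorem leS_antisymm (a b : Pt) (h1 : leS a b) (h2 : leS b a) : a = b := by
  cases a <;> cases b <;> simp_all [leS]
  exact h2.eq_of_length (le_antisymm h2.length_le h1.length_le)

theorem condB (a a' b : Pt) (h1 : leS a' a) (h2 : RS a' b) : RS a b := by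
  cases a <;> cases a' <;> cases b <;> simp_all [leS, RS]
  rcases h2 with h2 | h2
  · exact List.prefix_or_prefix_of_prefix h2 h1
  · exact Or.inr (h1.trans h2)

theorem condC (a b b' : Pt) (h1 : RS a b) (h2 : leS b' b) : RS a b' := by
  cases a <;> cases b <;> cases b' <;> simp_all [leS, RS]
  exact h1.trans h2

theorem condD (a b : Pt) (h1 : RS a b) : ∃ a', leS a' a ∧ ∀ a'', leS a'' a' → RS a'' b := by
  cases a with
  | x s =>
    cases b with
    | y t =>
      rcases h1 with h1 | h1
      · refine ⟨.x s, leS_refl _, fun a'' h => ?_⟩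
        cases a'' <;> simp_all [leS, RS]
        exact Or.inl (h1.trans h)
      · refine ⟨.x (t ++ [false]), h1, fun a'' h => ?_⟩
        cases a'' <;> simp_all [leS, RS]
    | x t => exact absurd h1 (by simp [RS])
    | e => exact absurd h1 (by simp [RS])
  | y s =>
    refine ⟨.y s, leS_refl _, fun a'' h => ?_⟩
    cases a'' <;> simp_all [leS]
  | e => cases b <;> exact absurd h1 (by simp [RS])

theorem succ_ex (a : Pt) (h : a ≠ .e) : ∃ c, RS a c := by
  cases a with
  | x s => exact ⟨.y s, Or.inr (List.prefix_append _ _)⟩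
  | y s => exact ⟨.e, trivial⟩
  | e => exact absurd rfl h

theorem le_x {a : Pt} {s : List Bool} (h : leS a (.x s)) : ∃ t, a = .x t ∧ s <+: t := by
  cases a <;> simp_all [leS]

theorem le_y {a : Pt} {s : List Bool} (h : leS a (.y s)) : a = .y s := by
  cases a <;> simp_all [leS]

theorem R_x {a : Pt} {s : List Bool} (h : RS (.x s) a) :
    ∃ t, a = .y t ∧ ((t ++ [false]) <+: s ∨ s <+: (t ++ [false])) := by
  cases a <;> simp_all [RS]

theorem R_e {a : Pt} (h : RS a .e) : ∃ t, a = .y t := by
  cases a <;> simp_all [RS]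

theorem force_E {I S : Type} (i : I) (le : S → S → Prop) (R : I → S → S → Prop) (V : ℕ → Set S)
    (hr : ∀ a, le a a) (z : S) : Forces le R V (fE i) z ↔ ∀ c, ¬ R i z c := by
  constructor
  · intro h c hc
    exact (h c hc).2 c (hr c) (h c hc).1
  · intro h c hc; exact absurd hc (h c)

theorem valid_base {I : Type} (i : I) : Valid leS (fun _ : I => RS) (phi i) := by
  intro V hV
  have hE := force_E i leS (fun _ : I => RS) V leS_refl
  have pers : ∀ a b, leS b a → a ∈ V 0 → b ∈ V 0 := by
    intro a b hba ha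
    rw [hV 0] at ha ⊢
    exact fun c hc => ha c (leS_trans _ _ _ hc hba)
  have hNx : ∀ s, Forces leS (fun _ : I => RS) V (fN i) (.x s) := by
    intro s b hb c hc he
    obtain ⟨t, rfl, _⟩ := R_x hb
    rw [le_y hc, hE] at he
    exact he .e trivial
  have hNy : ∀ s, ¬ Forces leS (fun _ : I => RS) V (fN i) (.y s) := by
    intro s h
    exact h .e trivial .e trivial ((hE _).2 (fun c hc => by cases c <;> exact hc))
  have hXx : ∀ s, Forces leS (fun _ : I => RS) V (fX i) (.x s) := by
    intro s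
    refine ⟨hNx s, fun c hc he => ?_⟩
    obtain ⟨t, rfl, _⟩ := le_x hc
    obtain ⟨d, hd⟩ := succ_ex (.x t) (by simp)
    exact (hE _).1 he d hd
  have hX : ∀ a, Forces leS (fun _ : I => RS) V (fX i) a → ∃ s, a = .x s := by
    intro a ha
    cases a with
    | x s => exact ⟨s, rfl⟩
    | y s => exact absurd ha.1 (hNy s)
    | e => exact absurd ((hE _).2 (fun c hc => by cases c <;> exact hc)) (ha.2 .e trivial)
  have hq1 : ∀ t, .x t ∈ V 0 → Forces leS (fun _ : I => RS) V (fq i) (.y t) := by
    intro t ht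
    refine ⟨fun c hc => by rw [le_y hc]; exact hNy t, ?_⟩
    rintro b hb c hc ⟨h1, h2⟩
    obtain ⟨s, rfl⟩ := hX c h1
    have : RS (.y t) (.x s) := condC _ _ _ hb hc
    exact h2 (.x s) (leS_refl _) (pers (.x t) (.x s) this ht)
  have hq2 : ∀ t, Forces leS (fun _ : I => RS) V (fq i) (.y t) → .x t ∈ V 0 := by
    intro t h
    rw [hV 0]
    intro c hc
    obtain ⟨s, rfl, hs⟩ := le_x hc
    by_contra hne
    refine h.2 (.x t) (List.prefix_refl t) (.x s) hc ⟨hXx s, fun d hd hdp => hne ⟨d, hd, hdp⟩⟩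
  have main : ∀ z, Forces leS (fun _ : I => RS) V (.box i (fN i)) z →
      ¬ Forces leS (fun _ : I => RS) V (fB i) z →
      z = .y [] ∧ ∃ t, .x t ∈ V 0 ∧ ∀ s, .x s ∈ V 0 → t.length ≤ s.length := by
    intro z hγ hB
    constructor
    · cases z with
      | x s => exact absurd (hγ (.y s) (Or.inr (List.prefix_append _ _))) (hNy s)
      | y s =>
        cases s with
        | nil => rfl
        | cons a s => exact absurd (hγ (.y []) (by simp [RS])) (hNy [])
      | e => exact absurd (fun c hc => by cases c <;> exact absurd hc (by simp [RS])) hB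
    · have : ∃ s, Pt.x s ∈ V 0 := by
        by_contra hne
        apply hB
        rintro b _ c _ ⟨h1, h2⟩
        obtain ⟨s, rfl⟩ := hX c h1
        exact hne ⟨s, h2⟩
      obtain ⟨t, ht, hmin⟩ := (measure List.length).wf.has_min {s | Pt.x s ∈ V 0} this
      exact ⟨t, ht, fun s hs => not_lt.1 (hmin s hs)⟩
  intro z
  refine ⟨fun w _ hw => ?_, fun w _ hw => ?_⟩
  · obtain ⟨rfl, t, ht, hmin⟩ := main w hw.1 (hw.2.2 w (leS_refl w))
    refine hw.2.1 (.x (t ++ [true])) List.nil_prefix _ (leS_refl _)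
      ⟨⟨hXx _, pers (.x t) _ (List.prefix_append _ _) ht⟩, ?_⟩
    intro b hb c hc hm
    obtain ⟨s, rfl, hs⟩ := R_x hb
    rw [le_y hc] at hm
    have h1 := hmin s (hq2 s hm.1)
    have h2 : ¬ t.length < s.length := fun h => hm.2 (.y t) h _ (leS_refl _) (hq1 t ht)
    have h3 : s ++ [false] = t ++ [true] := by
      rcases hs with hs | hs
      · exact hs.eq_of_length (by simp; omega)
      · exact (hs.eq_of_length (by simp; omega)).symm
    have := List.append_inj_right' h3 rfl
    simp at this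
  · obtain ⟨rfl, t, ht, hmin⟩ := main w hw.1 (hw.2.2 w (leS_refl w))
    refine hw.2.1 (.x (t ++ [false])) List.nil_prefix _ (leS_refl _)
      ⟨⟨hXx _, pers (.x t) _ (List.prefix_append _ _) ht⟩, ?_⟩
    intro c hc hu
    obtain ⟨s, rfl, hs⟩ := le_x hc
    refine hu (.y t) (Or.inl hs) _ (leS_refl _) ⟨hq1 t ht, ?_⟩
    intro b hb d hd hq
    have hbd : RS (.y t) d := condC _ _ _ hb hd
    cases d with
    | x s' => exact hq.1 _ (leS_refl _) (hNx s')
    | y s' => exact absurd (hmin s' (hq2 s' hq)) (not_le.2 hbd)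
    | e => exact hq.1 _ (leS_refl _) (fun c hc => by cases c <;> exact absurd hc (by simp [RS]))

end Pool.Agent.H.MP_156542_lc
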