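import Mathlib
import Pool.Agent.H.MP_156542_lc.A

namespace Pool.Agent.H.MP_156542_lc

open FirstOrder Filter

section
variable {Q : Type} (u : Ultrafilter ℕ) (π : (ℕ → Pt) → Q) (le R : Q → Q → Prop)
  (hs : Function.Surjective π)
  (heq : ∀ f g, (∀ᶠ n in u, f n = g n) → π f = π g)
  (hle : ∀ f g, le (π f) (π g) ↔ ∀ᶠ n in u, leS (f n) (g n))
  (hR : ∀ f g, R (π f) (π g) ↔ ∀ᶠ n in u, RS (f n) (g n))

include hs hle in
theorem q_refl (a : Q) : le a a := by
  obtain ⟨f, rfl⟩ := hs a
  exact (hle f f).2 (Eventually.of_forall fun n => leS_refl _)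

include hs hle in
theorem q_trans (a b c : Q) (h1 : le a b) (h2 : le b c) : le a c := by
  obtain ⟨f, rfl⟩ := hs a
  obtain ⟨g, rfl⟩ := hs b
  obtain ⟨k, rfl⟩ := hs c
  rw [hle] at *
  filter_upwards [h1, h2] with n a b using leS_trans _ _ _ a b

include hs hle hR in
theorem q_C (a b c : Q) (h1 : R a b) (h2 : le c b) : R a c := by
  obtain ⟨f, rfl⟩ := hs a
  obtain ⟨g, rfl⟩ := hs b
  obtain ⟨k, rfl⟩ := hs c
  rw [hR] at *
  rw [hle] at h2
  filter_upwards [h1, h2] with n a b using condC _ _ _ a b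

include hs heq hle hR in
theorem q_full {I : Type} : Full le (fun _ : I => R) := by
  apply full_of
  · refine { refl := q_refl u π le hs hle, trans := q_trans u π le hs hle, antisymm := ?_ }
    intro a b h1 h2
    obtain ⟨f, rfl⟩ := hs a
    obtain ⟨g, rfl⟩ := hs b
    rw [hle] at *
    apply heq
    filter_upwards [h1, h2] with n a b using leS_antisymm _ _ a b
  · intro _ a b c h1 h2
    obtain ⟨f, rfl⟩ := hs a
    obtain ⟨g, rfl⟩ := hs b
    obtain ⟨k, rfl⟩ := hs c
    rw [hR] at *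
    rw [hle] at h1
    filter_upwards [h1, h2] with n a b using condB _ _ _ a b
  · intro _ a b c h1 h2
    exact q_C u π le R hs hle hR a b c h1 h2
  · intro _ a b h1
    obtain ⟨f, rfl⟩ := hs a
    obtain ⟨g, rfl⟩ := hs b
    rw [hR] at h1
    have : ∀ n, ∃ a', RS (f n) (g n) → (leS a' (f n) ∧ ∀ a'', leS a'' a' → RS a'' (g n)) := by
      intro n
      by_cases h : RS (f n) (g n)
      · obtain ⟨a', ha⟩ := condD _ _ h
        exact ⟨a', fun _ => ha⟩
      · exact ⟨.e, fun h' => absurd h' h⟩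
    choose k hk using this
    refine ⟨π k, (hle _ _).2 (h1.mono fun n hn => (hk n hn).1), fun c hc => ?_⟩
    obtain ⟨l, rfl⟩ := hs c
    rw [hle] at hc
    rw [hR]
    filter_upwards [h1, hc] with n a b using (hk n a).2 _ b

include hR in
theorem q_succ (f : ℕ → Pt) (h : ∀ᶠ n in u, f n ≠ .e) : ∃ c, R (π f) c := by
  have : ∀ n, ∃ c, f n ≠ .e → RS (f n) c := by
    intro n
    by_cases h : f n = .e
    · exact ⟨.e, fun h' => absurd h h'⟩
    · obtain ⟨c, hc⟩ := succ_ex _ h
      exact ⟨c, fun _ => hc⟩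
  choose k hk using this
  exact ⟨π k, (hR _ _).2 (h.mono hk)⟩

def sk (k n : ℕ) : List Bool := List.replicate (n - k) false ++ [true]

theorem sk_len {k n : ℕ} {t s : List Bool} (h1 : sk k n <+: s) (h2 : t ++ [true] <+: s) :
    n - k ≤ t.length := by
  by_contra hlt
  push Not at hlt
  obtain ⟨a, ha⟩ := h1
  obtain ⟨b, hb⟩ := h2
  have e1 : s[t.length]? = some true := by
    rw [← hb]; simp
  have e2 : s[t.length]? = some false := by
    rw [← ha, sk, List.append_assoc, List.getElem?_append_left (by simpa using hlt)]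
    simp [hlt]
  rw [e1] at e2
  simp at e2

include hs hle hR in
theorem q_invalid (hu : (u : Filter ℕ) ≤ atTop) {I : Type} (i : I) :
    ¬ Valid le (fun _ : I => R) (phi i) := by
  intro hval
  have hr := q_refl u π le hs hle
  have ht := q_trans u π le hs hle
  have hC := q_C u π le R hs hle hR
  let A : Set Q := {z | ∃ k, le z (π fun n => .x (sk k n))}
  let V : ℕ → Set Q := fun _ => {z | ∀ z', le z' z → ∃ z'', le z'' z' ∧ z'' ∈ A}
  have hV : ∀ n, RO le (V n) := by
    intro n
    ext z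
    constructor
    · intro h z' hz'
      exact ⟨z', hr z', fun w hw => h w (ht _ _ _ hw hz')⟩
    · intro h z' hz'
      obtain ⟨w, h1, h2⟩ := h z' hz'
      obtain ⟨w', h3, h4⟩ := h2 w (hr w)
      exact ⟨w', ht _ _ _ h3 h1, h4⟩
  have hAV : ∀ z ∈ A, z ∈ V 0 := by
    rintro z ⟨k, hk⟩ z' hz'
    exact ⟨z', hr z', k, ht _ _ _ hz' hk⟩
  have hE := force_E i le (fun _ : I => R) V hr
  have hEe : ∀ f : ℕ → Pt, (∀ᶠ n in u, f n = .e) ↔ Forces le (fun _ : I => R) V (fE i) (π f) := by
    intro f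
    rw [hE]
    constructor
    · intro h c hc
      obtain ⟨g, rfl⟩ := hs c
      rw [hR] at hc
      obtain ⟨n, h1, h2⟩ := (h.and hc).exists
      rw [h1] at h2
      cases hg : g n <;> rw [hg] at h2 <;> exact h2
    · intro h
      by_contra hne
      obtain ⟨c, hc⟩ := q_succ u π R hR f (Ultrafilter.eventually_not.2 hne)
      exact h c hc
  have hN : ∀ f : ℕ → Pt, Forces le (fun _ : I => R) V (fN i) (π f) ↔
      ¬ ∀ᶠ n in u, ∃ t, f n = .y t := by
    intro f
    constructor
    · intro h hy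
      refine h (π fun _ => .e) ((hR _ _).2 (hy.mono ?_)) _ (hr _)
        ((hEe _).1 (Eventually.of_forall fun _ => rfl))
      rintro n ⟨t, h⟩
      rw [h]; trivial
    · intro h b hb c hc he
      have := hC _ _ _ hb hc
      obtain ⟨g, rfl⟩ := hs c
      rw [← hEe] at he
      rw [hR] at this
      apply h
      filter_upwards [this, he] with n h1 h2
      rw [h2] at h1
      exact R_e h1
  have hX : ∀ f : ℕ → Pt, Forces le (fun _ : I => R) V (fX i) (π f) ↔
      ∀ᶠ n in u, ∃ t, f n = .x t := by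
    intro f
    constructor
    · rintro ⟨h1, h2⟩
      rw [hN, ← Ultrafilter.eventually_not] at h1
      have h3 := h2 _ (hr _)
      rw [← hEe, ← Ultrafilter.eventually_not] at h3
      filter_upwards [h1, h3] with n a b
      cases hf : f n with
      | x s => exact ⟨s, rfl⟩
      | y s => exact absurd ⟨s, hf⟩ a
      | e => exact absurd hf b
    · intro h
      refine ⟨(hN f).2 fun hy => ?_, fun c hc he => ?_⟩
      · obtain ⟨n, ⟨s, h1⟩, ⟨t, h2⟩⟩ := (h.and hy).exists
        rw [h1] at h2; cases h2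
      · obtain ⟨g, rfl⟩ := hs c
        rw [← hEe] at he
        rw [hle] at hc
        obtain ⟨n, ⟨s, h1⟩, h2, h3⟩ := (h.and (he.and hc)).exists
        rw [h1, h2] at h3
        exact h3
  have hq : ∀ k, Forces le (fun _ : I => R) V (fq i) (π fun n => .y (sk k n)) := by
    intro k
    refine ⟨fun c hc => ?_, ?_⟩
    · obtain ⟨g, rfl⟩ := hs c
      rw [hN, not_not]
      rw [hle] at hc
      exact hc.mono fun n hn => ⟨_, le_y hn⟩
    · rintro b hb c hc ⟨h1, h2⟩
      have := hC _ _ _ hb hc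
      obtain ⟨g, rfl⟩ := hs c
      rw [hX] at h1
      rw [hR] at this
      refine h2 _ (hr _) (hAV _ ⟨k, (hle _ _).2 ?_⟩)
      filter_upwards [h1, this] with n ⟨t, a⟩ b
      rw [a] at b ⊢
      exact b
  have hm : ∀ z, ¬ Forces le (fun _ : I => R) V (fm i) z := by
    rintro z ⟨⟨h1, h2⟩, h3⟩
    obtain ⟨f, rfl⟩ := hs z
    have h4 := h1 _ (hr _)
    rw [hN, not_not] at h4
    have : ∀ n, ∃ t, (∃ t, f n = .y t) → f n = .y t := by
      intro n
      by_cases h : ∃ t, f n = .y t
      · obtain ⟨t, ht⟩ := h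
        exact ⟨t, fun _ => ht⟩
      · exact ⟨[], fun h' => absurd h' h⟩
    choose t htt using this
    have h5 : ∀ᶠ n in u, f n = .y (t n) := h4.mono htt
    have h6 : R (π f) (π fun n => .x (t n ++ [true])) := by
      rw [hR]
      filter_upwards [h5] with n hn
      rw [hn]
      exact List.prefix_append _ _
    apply h2 _ h6 _ (hr _)
    refine ⟨(hX _).2 (Eventually.of_forall fun n => ⟨_, rfl⟩), fun c hc hp => ?_⟩
    obtain ⟨d, hd, k, hk⟩ := hp c (hr c)
    have hd' := ht _ _ _ hd hc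
    obtain ⟨g, rfl⟩ := hs d
    rw [hle] at hd' hk
    refine h3 (π fun n => .y (sk (k + 2) n)) ?_ _ (hr _) (hq (k + 2))
    refine (hR _ _).2 ?_
    filter_upwards [h5, hd', hk, hu (eventually_ge_atTop (k + 2))] with n a b c e
    rw [a]
    obtain ⟨s, hs1, hs2⟩ := le_x b
    rw [hs1] at c
    have := sk_len c hs2
    have e' : k + 2 ≤ n := e
    show (sk (k + 2) n).length < (t n).length
    simp only [sk, List.length_append, List.length_replicate, List.length_singleton]
    omega
  have hu' : ∀ z, Forces le (fun _ : I => R) V (fu i) z := fun z b _ c _ => hm c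
  refine (hval V hV (π fun _ => .y [])).2 _ (hr _) ⟨?_, ?_, ?_⟩
  · intro b hb
    obtain ⟨g, rfl⟩ := hs b
    rw [hN]
    intro hy
    rw [hR] at hb
    obtain ⟨n, h1, ⟨t, h2⟩⟩ := (hb.and hy).exists
    rw [h2] at h1
    simp [RS] at h1
  · rintro b _ c _ ⟨_, h⟩
    exact h c (hr c) (hu' c)
  · intro c hc hB
    obtain ⟨g, rfl⟩ := hs c
    rw [hle] at hc
    refine hB (π fun n => .x (sk 0 n)) ((hR _ _).2 (hc.mono fun n hn => ?_)) _ (hr _)
      ⟨(hX _).2 (Eventually.of_forall fun n => ⟨_, rfl⟩), hAV _ ⟨0, hr _⟩⟩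
    rw [le_y hn]
    exact List.nil_prefix

end

instance ptStr (I : Type) : (Lang (Option I)).Structure Pt where
  funMap := fun f _ => Empty.elim f
  RelMap := fun {n} r v => match n, r with
    | _, .r none => leS (v 0) (v 1)
    | _, .r (some _) => RS (v 0) (v 1)

instance : Nonempty Pt := ⟨.e⟩

theorem rel_prod {J : Type} (u : Ultrafilter ℕ) (M : Type) [(Lang J).Structure M] (j : J)
    (f g : ℕ → M) :
    rel ((u : Filter ℕ).Product (fun _ => M)) j (f : (u : Filter ℕ).Product (fun _ => M))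
      (g : (u : Filter ℕ).Product (fun _ => M)) ↔ ∀ᶠ n in u, rel M j (f n) (g n) := by
  have h := @Language.relMap_quotient_mk' (Lang J) _ ((u : Filter ℕ).productSetoid (fun _ => M))
    (Language.Ultraproduct.setoidPrestructure (fun _ => M) u) 2 (Rel2.r j) ![f, g]
  have e1 : (fun i => (⟦(![f, g] : Fin 2 → ℕ → M) i⟧ :
      Quotient ((u : Filter ℕ).productSetoid (fun _ => M)))) =
      ![(f : (u : Filter ℕ).Product (fun _ => M)), (g : (u : Filter ℕ).Product (fun _ => M))] := by
    funext i; fin_cases i <;> rfl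
  rw [e1] at h
  refine h.trans ?_
  have e2 : ∀ n, (fun i => (![f, g] : Fin 2 → ℕ → M) i n) = ![f n, g n] := by
    intro n; funext i; fin_cases i <;> rfl
  show (∀ᶠ n in u, Language.Structure.RelMap (L := Lang J) (n := 2) (Rel2.r j)
    (fun i => (![f, g] : Fin 2 → ℕ → M) i n)) ↔ _
  simp only [e2]
  rfl

end Pool.Agent.H.MP_156542_lc
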